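import Pool.Agent.MertensAP.Mangoldt
import Pool.Agent.CoprimeSieve.Mertens

set_option autoImplicit false
set_option linter.unusedSectionVars false

open Finset MeasureTheory Filter Topology ArithmeticFunction

namespace Pool.Agent.MertensAP

variable {q : ℕ} [NeZero q]

lemma summable_nonprime_vonMangoldt_div :
    Summable (fun n : ℕ => (if n.Prime then 0 else vonMangoldt n) / (n:ℝ)) := by
  have h := ArithmeticFunction.vonMangoldt.summable_residueClass_non_primes_div (q := 1) (0 : ZMod 1)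
  refine h.congr (fun n => ?_)
  have : ArithmeticFunction.vonMangoldt.residueClass (0 : ZMod 1) n = vonMangoldt n := by
    simp [ArithmeticFunction.vonMangoldt.residueClass, Set.indicator, eq_iff_true_of_subsingleton]
  rw [this]

lemma nonprime_nonneg (n : ℕ) : 0 ≤ (if n.Prime then 0 else vonMangoldt n) / (n:ℝ) := by
  split_ifs
  · simp
  · exact div_nonneg vonMangoldt_nonneg (Nat.cast_nonneg _)

/-- the primes up to `N`. -/
noncomputable def prN (N : ℕ) : Finset ℕ := (Ioc 0 N).filter Nat.Prime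

/-- `∑_{p ≤ N} χ(p) log p / p = O(1)` for `χ ≠ 1`. -/
theorem sum_char_primes (χ : DirichletCharacter ℂ q) (hχ : χ ≠ 1) :
    ∃ C : ℝ, 0 ≤ C ∧ ∀ N : ℕ, ‖∑ p ∈ prN N, χ p * ((Real.log p / p : ℝ) : ℂ)‖ ≤ C := by
  obtain ⟨C₁, hC₁, h₁⟩ := sum_char_vonMangoldt_div χ hχ
  have hT0 : 0 ≤ ∑' n : ℕ, (if n.Prime then 0 else vonMangoldt n) / (n:ℝ) := tsum_nonneg nonprime_nonneg
  refine ⟨C₁ + ∑' n : ℕ, (if n.Prime then 0 else vonMangoldt n) / (n:ℝ), by positivity, ?_⟩
  intro N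
  have hsplit : ∑ p ∈ prN N, χ p * ((Real.log p / p : ℝ) : ℂ)
      = ∑ n ∈ Ioc 0 N, χ n * ((vonMangoldt n / n : ℝ) : ℂ)
        - ∑ n ∈ Ioc 0 N, χ n * (((if n.Prime then 0 else vonMangoldt n) / (n:ℝ) : ℝ) : ℂ) := by
    unfold prN
    rw [Finset.sum_filter, ← Finset.sum_sub_distrib]
    apply Finset.sum_congr rfl
    intro n _
    split_ifs with h
    · rw [vonMangoldt_apply_prime h]; simp
    · simp
  rw [hsplit]
  refine (norm_sub_le _ _).trans (add_le_add (h₁ N) ?_)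
  refine (norm_sum_le _ _).trans ?_
  refine (Finset.sum_le_sum (fun n _ => ?_)).trans
    (Summable.sum_le_tsum (Ioc 0 N) (fun n _ => nonprime_nonneg n) summable_nonprime_vonMangoldt_div)
  rw [norm_mul, Complex.norm_real, Real.norm_eq_abs, abs_of_nonneg (nonprime_nonneg n)]
  exact mul_le_of_le_one_left (nonprime_nonneg n) (χ.norm_le_one _)

/-- Orthogonality on primes. -/
lemma orth_prime {a : ZMod q} (ha : IsUnit a) {p : ℕ} (hp : p.Prime) :
    (((if (p : ZMod q) = a then Real.log p / p else 0 : ℝ)) : ℂ)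
      = (q.totient : ℂ)⁻¹ * ∑ χ : DirichletCharacter ℂ q, χ a⁻¹ * (χ p * ((Real.log p / p : ℝ) : ℂ)) := by
  have h := ArithmeticFunction.vonMangoldt.residueClass_apply ha p
  rw [vonMangoldt_apply_prime hp] at h
  have h1 : ArithmeticFunction.vonMangoldt.residueClass a p = if (p : ZMod q) = a then Real.log p else 0 := by
    simp only [ArithmeticFunction.vonMangoldt.residueClass, Set.indicator, Set.mem_ofPred_eq]
    rw [vonMangoldt_apply_prime hp]
  rw [h1] at h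
  have h2 : (((if (p : ZMod q) = a then Real.log p / p else 0 : ℝ)) : ℂ)
      = (((if (p : ZMod q) = a then Real.log p else 0 : ℝ)) : ℂ) / p := by
    split_ifs <;> simp
  rw [h2, h, mul_div_assoc, Finset.sum_div]
  congr 1
  apply Finset.sum_congr rfl
  intro χ _
  push_cast
  ring

lemma sum_principal (N : ℕ) : |∑ p ∈ prN N, (if IsUnit (p : ZMod q) then Real.log p / p else 0)
      - ∑ p ∈ prN N, Real.log p / p| ≤ ∑ p ∈ q.primeFactors, Real.log p / p := by
  have h0 : ∀ p : ℕ, 0 ≤ Real.log p / (p:ℝ) := fun p => div_nonneg (Real.log_natCast_nonneg p) (Nat.cast_nonneg p)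
  rw [← Finset.sum_sub_distrib]
  refine (Finset.abs_sum_le_sum_abs _ _).trans ?_
  have h1 : ∀ p ∈ prN N, |(if IsUnit (p : ZMod q) then Real.log p / p else 0) - Real.log p / p|
      = if p ∣ q then Real.log p / p else 0 := by
    intro p hp
    have hp' : p.Prime := (Finset.mem_filter.mp hp).2
    have hiff : IsUnit (p : ZMod q) ↔ ¬ p ∣ q := by
      rw [ZMod.isUnit_iff_coprime, Nat.Prime.coprime_iff_not_dvd hp']
    by_cases hd : p ∣ q
    · rw [if_neg (by rw [hiff]; exact not_not.mpr hd), if_pos hd, zero_sub, abs_neg, abs_of_nonneg (h0 p)]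
    · rw [if_pos (hiff.mpr hd), if_neg hd, sub_self, abs_zero]
  rw [Finset.sum_congr rfl h1, ← Finset.sum_filter]
  apply Finset.sum_le_sum_of_subset_of_nonneg
  · intro p hp
    rw [Finset.mem_filter] at hp
    exact Nat.mem_primeFactors.mpr ⟨(Finset.mem_filter.mp hp.1).2, hp.2, NeZero.ne q⟩
  · intro p _ _
    exact h0 p

/-- **Mertens' theorem in arithmetic progressions**, integer cut-off, bound by a constant depending
only on `q`. -/
theorem mertens_ap_nat (q : ℕ) [NeZero q] : ∃ C : ℝ, 0 ≤ C ∧ ∀ a : ZMod q, IsUnit a → ∀ N : ℕ, 1 ≤ N →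
    |∑ p ∈ (prN N).filter (fun p : ℕ => (p : ZMod q) = a), Real.log p / p - Real.log N / q.totient| ≤ C := by
  classical
  choose Cc hCc hc using fun χ : {χ : DirichletCharacter ℂ q // χ ≠ 1} => sum_char_primes χ.1 χ.2
  obtain ⟨C₀, hC₀, hM⟩ := Pool.Agent.CoprimeSieve.mertens_first
  have hφ : (0:ℝ) < q.totient := by exact_mod_cast Nat.totient_pos.mpr (Nat.pos_of_neZero q)
  have h0 : ∀ p : ℕ, 0 ≤ Real.log p / (p:ℝ) := fun p => div_nonneg (Real.log_natCast_nonneg p) (Nat.cast_nonneg p)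
  have hpf0 : 0 ≤ ∑ p ∈ q.primeFactors, Real.log p / (p:ℝ) := Finset.sum_nonneg (fun p _ => h0 p)
  refine ⟨(C₀ + ∑ p ∈ q.primeFactors, Real.log p / (p:ℝ) + ∑ χ : {χ : DirichletCharacter ℂ q // χ ≠ 1}, Cc χ) / q.totient,
    by have := Finset.sum_nonneg (fun (χ : {χ : DirichletCharacter ℂ q // χ ≠ 1}) (_ : χ ∈ Finset.univ) => hCc χ)
       positivity, ?_⟩
  intro a ha N hN
  -- complex version
  have hX : ((∑ p ∈ (prN N).filter (fun p : ℕ => (p : ZMod q) = a), Real.log p / p : ℝ) : ℂ)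
      = (q.totient : ℂ)⁻¹ * ∑ χ : DirichletCharacter ℂ q, χ a⁻¹ * ∑ p ∈ prN N, (χ p * ((Real.log p / p : ℝ) : ℂ)) := by
    rw [Finset.sum_filter, Complex.ofReal_sum]
    rw [Finset.sum_congr rfl (fun p (hp : p ∈ prN N) => orth_prime ha (Finset.mem_filter.mp hp).2)]
    rw [← Finset.mul_sum, Finset.sum_comm]
    congr 1
    apply Finset.sum_congr rfl
    intro χ _
    rw [Finset.mul_sum]
  -- the principal character
  have hprin : (1 : DirichletCharacter ℂ q) a⁻¹ * ∑ p ∈ prN N, ((1 : DirichletCharacter ℂ q) p * ((Real.log p / p : ℝ) : ℂ))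
      = ((∑ p ∈ prN N, (if IsUnit (p : ZMod q) then Real.log p / p else 0) : ℝ) : ℂ) := by
    have hainv : IsUnit a⁻¹ := by
      obtain ⟨u, rfl⟩ := ha
      rw [ZMod.inv_coe_unit]
      exact Units.isUnit _
    rw [MulChar.one_apply hainv, one_mul, Complex.ofReal_sum]
    apply Finset.sum_congr rfl
    intro p _
    by_cases hu : IsUnit (p : ZMod q)
    · rw [MulChar.one_apply hu, if_pos hu, one_mul]
    · rw [MulChar.map_nonunit _ hu, if_neg hu, zero_mul, Complex.ofReal_zero]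
  have hsum : ∑ χ : DirichletCharacter ℂ q, χ a⁻¹ * ∑ p ∈ prN N, (χ p * ((Real.log p / p : ℝ) : ℂ))
      = ((∑ p ∈ prN N, (if IsUnit (p : ZMod q) then Real.log p / p else 0) : ℝ) : ℂ)
        + ∑ χ : {χ : DirichletCharacter ℂ q // χ ≠ 1}, χ.1 a⁻¹ * ∑ p ∈ prN N, (χ.1 p * ((Real.log p / p : ℝ) : ℂ)) := by
    rw [← hprin]
    rw [← Finset.sum_subtype (Finset.univ.erase (1 : DirichletCharacter ℂ q))
      (p := fun χ => χ ≠ 1) (by intro x; simp)
      (fun χ : DirichletCharacter ℂ q => χ a⁻¹ * ∑ p ∈ prN N, (χ p * ((Real.log p / p : ℝ) : ℂ)))]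
    exact (Finset.add_sum_erase Finset.univ
      (fun χ : DirichletCharacter ℂ q => χ a⁻¹ * ∑ p ∈ prN N, (χ p * ((Real.log p / p : ℝ) : ℂ)))
      (Finset.mem_univ 1)).symm
  have hE : |∑ p ∈ prN N, Real.log p / p - Real.log N| ≤ C₀ := by
    have h1 := hM N (by exact_mod_cast hN)
    have h2 : Pool.Agent.CoprimeSieve.mE (N:ℝ) = ∑ p ∈ prN N, Real.log p / p := by
      unfold Pool.Agent.CoprimeSieve.mE Pool.Agent.CoprimeSieve.pr prN
      rw [Nat.floor_natCast]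
      rfl
    rwa [h2] at h1
  have hfin : ‖((∑ p ∈ (prN N).filter (fun p : ℕ => (p : ZMod q) = a), Real.log p / p - Real.log N / q.totient : ℝ) : ℂ)‖
      ≤ (C₀ + ∑ p ∈ q.primeFactors, Real.log p / (p:ℝ) + ∑ χ : {χ : DirichletCharacter ℂ q // χ ≠ 1}, Cc χ) / q.totient := by
    rw [Complex.ofReal_sub, hX, hsum]
    have e : (q.totient : ℂ)⁻¹ * (((∑ p ∈ prN N, (if IsUnit (p : ZMod q) then Real.log p / p else 0) : ℝ) : ℂ)
        + ∑ χ : {χ : DirichletCharacter ℂ q // χ ≠ 1}, χ.1 a⁻¹ * ∑ p ∈ prN N, (χ.1 p * ((Real.log p / p : ℝ) : ℂ)))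
        - ((Real.log N / q.totient : ℝ) : ℂ)
        = (q.totient : ℂ)⁻¹ * (((∑ p ∈ prN N, Real.log p / p - Real.log N : ℝ) : ℂ)
          + ((∑ p ∈ prN N, (if IsUnit (p : ZMod q) then Real.log p / p else 0) - ∑ p ∈ prN N, Real.log p / p : ℝ) : ℂ)
          + ∑ χ : {χ : DirichletCharacter ℂ q // χ ≠ 1}, χ.1 a⁻¹ * ∑ p ∈ prN N, (χ.1 p * ((Real.log p / p : ℝ) : ℂ))) := by
      push_cast
      ring
    rw [e, norm_mul, norm_inv, Complex.norm_natCast, div_eq_inv_mul]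
    apply mul_le_mul_of_nonneg_left _ (by positivity)
    refine (norm_add_le _ _).trans (add_le_add ((norm_add_le _ _).trans (add_le_add ?_ ?_)) ?_)
    · rw [Complex.norm_real, Real.norm_eq_abs]; exact hE
    · rw [Complex.norm_real, Real.norm_eq_abs]; exact sum_principal N
    · refine (norm_sum_le _ _).trans (Finset.sum_le_sum (fun χ _ => ?_))
      rw [norm_mul]
      exact (mul_le_of_le_one_left (norm_nonneg _) (χ.1.norm_le_one _)).trans (hc χ N)
  rwa [Complex.norm_real, Real.norm_eq_abs] at hfin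

/-- **Mertens' theorem in arithmetic progressions**: for every modulus `q` there is a constant `C`
such that for every unit `a` mod `q` and every real `x ≥ 1`,
`|∑_{p ≤ x, p ≡ a (q)} log p / p - log x / φ(q)| ≤ C`. -/
theorem mertens_ap (q : ℕ) [NeZero q] : ∃ C : ℝ, 0 ≤ C ∧ ∀ a : ZMod q, IsUnit a → ∀ x : ℝ, 1 ≤ x →
    |∑ p ∈ (Icc 1 ⌊x⌋₊).filter (fun p : ℕ => p.Prime ∧ (p : ZMod q) = a), Real.log p / p
      - Real.log x / q.totient| ≤ C := by
  obtain ⟨C, hC, h⟩ := mertens_ap_nat q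
  have hφ : (0:ℝ) < q.totient := by exact_mod_cast Nat.totient_pos.mpr (Nat.pos_of_neZero q)
  have hl2 := Real.log_nonneg (show (1:ℝ) ≤ 2 by norm_num)
  refine ⟨C + Real.log 2, by linarith, ?_⟩
  intro a ha x hx
  have hN : 1 ≤ ⌊x⌋₊ := Nat.le_floor (by simpa using hx)
  have hN0 : (0:ℝ) < (⌊x⌋₊:ℝ) := by exact_mod_cast hN
  have h1 := h a ha ⌊x⌋₊ hN
  have e : (Icc 1 ⌊x⌋₊).filter (fun p : ℕ => p.Prime ∧ (p : ZMod q) = a)
      = (prN ⌊x⌋₊).filter (fun p : ℕ => (p : ZMod q) = a) := by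
    unfold prN
    rw [Finset.filter_filter]
    rfl
  rw [e]
  have h3 : (⌊x⌋₊:ℝ) ≤ x := Nat.floor_le (by linarith)
  have h4 : x ≤ 2 * (⌊x⌋₊:ℝ) := by
    have h5 := (Nat.lt_floor_add_one x).le
    have h6 : (1:ℝ) ≤ (⌊x⌋₊:ℝ) := by exact_mod_cast hN
    linarith
  have h5 : Real.log (⌊x⌋₊:ℝ) ≤ Real.log x := Real.log_le_log hN0 h3
  have h6 : Real.log x ≤ Real.log 2 + Real.log (⌊x⌋₊:ℝ) := by
    rw [← Real.log_mul (by norm_num) hN0.ne']
    exact Real.log_le_log (by linarith) h4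
  have hφ1 : (1:ℝ) ≤ q.totient := by exact_mod_cast Nat.totient_pos.mpr (Nat.pos_of_neZero q)
  have h7 : Real.log (⌊x⌋₊:ℝ) / q.totient ≤ Real.log x / q.totient := by gcongr
  have h8 : Real.log x / q.totient ≤ Real.log (⌊x⌋₊:ℝ) / q.totient + Real.log 2 := by
    have : Real.log x / q.totient ≤ (Real.log 2 + Real.log (⌊x⌋₊:ℝ)) / q.totient := by gcongr
    have h9 : Real.log 2 / q.totient ≤ Real.log 2 := div_le_self hl2 hφ1
    rw [add_div] at this
    linarith
  rw [abs_le] at h1 ⊢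
  constructor <;> linarith [h1.1, h1.2]

/-- Version with `p ≡ a [MOD q]`, `q ≥ 1`, `gcd(a,q) = 1`. -/
theorem mertens_ap_mod (q : ℕ) (hq : 1 ≤ q) : ∃ C : ℝ, 0 ≤ C ∧ ∀ a : ℕ, a.Coprime q → ∀ x : ℝ, 1 ≤ x →
    |∑ p ∈ (Icc 1 ⌊x⌋₊).filter (fun p : ℕ => p.Prime ∧ p ≡ a [MOD q]), Real.log p / p
      - Real.log x / q.totient| ≤ C := by
  have : NeZero q := ⟨by omega⟩
  obtain ⟨C, hC, h⟩ := mertens_ap q
  refine ⟨C, hC, fun a ha x hx => ?_⟩
  have h1 := h (a : ZMod q) ((ZMod.isUnit_iff_coprime a q).mpr ha) x hx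
  simpa only [ZMod.natCast_eq_natCast_iff] using h1

end Pool.Agent.MertensAP
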