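import Mathlib

set_option autoImplicit false

open Finset MeasureTheory Filter Topology

namespace Pool.Agent.MertensAP

set_option linter.unusedSectionVars false

variable {q : ℕ} [NeZero q]

/-- A complete block of a nonprincipal character sums to zero. -/
lemma sum_block (χ : DirichletCharacter ℂ q) (hχ : χ ≠ 1) (a : ℕ) :
    ∑ k ∈ Ico a (a + q), χ k = 0 := by
  have h0 : ∑ x : ZMod q, χ x = 0 := MulChar.sum_eq_zero_of_ne_one hχ
  rw [← h0]
  have hinj : Set.InjOn (fun k : ℕ => (k : ZMod q)) (Ico a (a + q) : Finset ℕ) := by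
    intro x hx y hy hxy
    apply Nat.mod_injOn_Ico a q hx hy
    exact (ZMod.natCast_eq_natCast_iff' x y q).mp hxy
  have himg : (Ico a (a + q)).image (fun k : ℕ => (k : ZMod q)) = Finset.univ := by
    apply Finset.eq_univ_of_card
    rw [Finset.card_image_of_injOn hinj]
    simp [ZMod.card]
  rw [← himg, Finset.sum_image hinj]

/-- Partial sums of a nonprincipal character are bounded by `q`. -/
lemma norm_sum_char_le (χ : DirichletCharacter ℂ q) (hχ : χ ≠ 1) (n : ℕ) :
    ‖∑ k ∈ Icc 1 n, χ k‖ ≤ q := by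
  have hq : 0 < q := Nat.pos_of_neZero q
  induction n using Nat.strong_induction_on with
  | _ n ih =>
    rcases Nat.lt_or_ge n q with h | h
    · calc ‖∑ k ∈ Icc 1 n, χ k‖ ≤ ∑ k ∈ Icc 1 n, ‖χ k‖ := norm_sum_le _ _
        _ ≤ ∑ k ∈ Icc 1 n, (1:ℝ) := Finset.sum_le_sum (fun k _ => χ.norm_le_one _)
        _ = n := by simp
        _ ≤ q := by exact_mod_cast h.le
    · have hsplit : ∑ k ∈ Icc 1 n, χ k = ∑ k ∈ Icc 1 (n - q), χ k + ∑ k ∈ Ico (n - q + 1) (n - q + 1 + q), χ k := by
        have e : Icc 1 n = Icc 1 (n - q) ∪ Ico (n - q + 1) (n - q + 1 + q) := by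
          ext k; simp only [mem_Icc, mem_union, mem_Ico]; omega
        rw [e, Finset.sum_union]
        rw [Finset.disjoint_left]
        intro k; simp only [mem_Icc, mem_Ico]; omega
      rw [hsplit, sum_block χ hχ, add_zero]
      exact ih (n - q) (by omega)

/-- The summatory function. -/
noncomputable def S (χ : DirichletCharacter ℂ q) (t : ℝ) : ℂ := ∑ k ∈ Icc 1 ⌊t⌋₊, χ k

lemma norm_S_le (χ : DirichletCharacter ℂ q) (hχ : χ ≠ 1) (t : ℝ) : ‖S χ t‖ ≤ q :=
  norm_sum_char_le χ hχ _

lemma measurable_S (χ : DirichletCharacter ℂ q) : Measurable (S χ) := by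
  unfold S
  exact (measurable_from_nat (f := fun n : ℕ => ∑ k ∈ Icc 1 n, χ k)).comp Nat.measurable_floor

/-- Integral representation on `s > 1`. -/
lemma LFunction_eq_integral (χ : DirichletCharacter ℂ q) (hχ : χ ≠ 1) {s : ℝ} (hs : 1 < s) :
    χ.LFunction s = s * ∫ t in Set.Ioi (1:ℝ), S χ t * (t : ℂ) ^ (-((s:ℂ) + 1)) := by
  have hs' : 1 < (s:ℂ).re := by simpa using hs
  rw [DirichletCharacter.LFunction_eq_LSeries χ hs']
  apply LSeries_eq_mul_integral (fun n : ℕ => χ n) (le_refl (0:ℝ)) (by simp; linarith)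
  · exact DirichletCharacter.LSeriesSummable_of_one_lt_re χ hs'
  · refine Asymptotics.IsBigO.of_bound q (Filter.Eventually.of_forall (fun n => ?_))
    simpa using norm_sum_char_le χ hχ n

lemma integrableOn_rpow_neg_two : IntegrableOn (fun t : ℝ => (t ^ (2:ℕ))⁻¹) (Set.Ioi 1) := by
  have h := integrableOn_Ioi_rpow_of_lt (a := -2) (by norm_num) (zero_lt_one (α := ℝ))
  refine h.congr_fun ?_ measurableSet_Ioi
  intro t ht
  have : (0:ℝ) < t := lt_trans zero_lt_one ht
  simp only
  rw [Real.rpow_neg this.le]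
  norm_cast

/-- `L(1,χ) = ∫_1^∞ S(t) t^{-2} dt`. -/
lemma LFunction_one_eq_integral (χ : DirichletCharacter ℂ q) (hχ : χ ≠ 1) :
    χ.LFunction 1 = ∫ t in Set.Ioi (1:ℝ), S χ t * (t : ℂ) ^ (-(2:ℂ)) := by
  have hcont : Tendsto (fun s : ℝ => χ.LFunction (s:ℂ)) (𝓝[>] 1) (𝓝 (χ.LFunction 1)) := by
    have h1 : Continuous (fun s : ℝ => χ.LFunction (s:ℂ)) :=
      (DirichletCharacter.differentiable_LFunction hχ).continuous.comp Complex.continuous_ofReal
    have h2 := h1.tendsto 1
    simp only [Complex.ofReal_one] at h2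
    exact h2.mono_left nhdsWithin_le_nhds
  have hint : Tendsto (fun s : ℝ => (s:ℂ) * ∫ t in Set.Ioi (1:ℝ), S χ t * (t : ℂ) ^ (-((s:ℂ) + 1)))
      (𝓝[>] 1) (𝓝 ((1:ℂ) * ∫ t in Set.Ioi (1:ℝ), S χ t * (t : ℂ) ^ (-(2:ℂ)))) := by
    apply Tendsto.mul
    · have : Tendsto (fun s : ℝ => (s:ℂ)) (𝓝 1) (𝓝 ((1:ℝ):ℂ)) := Complex.continuous_ofReal.tendsto 1
      simpa using this.mono_left nhdsWithin_le_nhds
    · apply tendsto_integral_filter_of_dominated_convergence (fun t : ℝ => q * (t ^ (2:ℕ))⁻¹)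
      · filter_upwards [self_mem_nhdsWithin] with s hs
        apply Measurable.aestronglyMeasurable
        apply (measurable_S χ).mul
        exact (Complex.measurable_ofReal.pow_const _)
      · filter_upwards [self_mem_nhdsWithin] with s hs
        rw [ae_restrict_iff' measurableSet_Ioi]
        filter_upwards with t ht
        have ht0 : (0:ℝ) < t := lt_trans zero_lt_one ht
        rw [norm_mul]
        apply mul_le_mul (norm_S_le χ hχ t) _ (norm_nonneg _) (Nat.cast_nonneg _)
        rw [Complex.norm_cpow_eq_rpow_re_of_pos ht0]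
        have e : (-((s:ℂ) + 1)).re = -(s + 1) := by simp
        rw [e]
        have h3 : (t ^ (2:ℕ))⁻¹ = t ^ (-2:ℝ) := by
          rw [Real.rpow_neg ht0.le]; norm_cast
        rw [h3]
        apply Real.rpow_le_rpow_of_exponent_le (le_of_lt ht)
        have : (1:ℝ) < s := hs
        linarith
      · exact integrableOn_rpow_neg_two.const_mul _
      · rw [ae_restrict_iff' measurableSet_Ioi]
        filter_upwards with t ht
        have ht0 : (0:ℝ) < t := lt_trans zero_lt_one ht
        apply Tendsto.mul tendsto_const_nhds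
        have hc : Continuous (fun s : ℝ => (t:ℂ) ^ (-((s:ℂ) + 1))) := by
          apply Continuous.const_cpow
          · fun_prop
          · left
            exact_mod_cast ht0.ne'
        have h4 := hc.tendsto 1
        have e : (-(((1:ℝ):ℂ) + 1)) = -(2:ℂ) := by push_cast; ring
        rw [e] at h4
        exact h4.mono_left nhdsWithin_le_nhds
  rw [one_mul] at hint
  have heq : (fun s : ℝ => χ.LFunction (s:ℂ)) =ᶠ[𝓝[>] 1]
      (fun s : ℝ => (s:ℂ) * ∫ t in Set.Ioi (1:ℝ), S χ t * (t : ℂ) ^ (-((s:ℂ) + 1))) := by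
    filter_upwards [self_mem_nhdsWithin] with s hs
    exact LFunction_eq_integral χ hχ hs
  exact tendsto_nhds_unique (hcont.congr' heq) hint

end Pool.Agent.MertensAP
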