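import Pool.Agent.MertensAP.Char

set_option autoImplicit false

open Finset MeasureTheory Filter Topology ArithmeticFunction

namespace Pool.Agent.MertensAP

set_option linter.unusedSectionVars false

variable {q : ℕ} [NeZero q]

lemma char_zero (χ : DirichletCharacter ℂ q) (hχ : χ ≠ 1) : χ 0 = 0 := by
  apply χ.map_nonunit
  intro h
  apply hχ
  rw [isUnit_zero_iff] at h
  have : Subsingleton (ZMod q) := subsingleton_of_zero_eq_one h
  ext a
  have : a = 1 := Subsingleton.elim _ _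
  rw [this]
  simp

/-- `∑_{k ≤ x} χ(k)/k = L(1,χ) + O(1/x)`. -/
lemma sum_char_div_sub_le (χ : DirichletCharacter ℂ q) (hχ : χ ≠ 1) (N : ℕ) (hN : 1 ≤ N) :
    ‖∑ k ∈ Ioc 0 N, χ k / k - χ.LFunction 1‖ ≤ 2 * q / N := by
  have hN0 : (0:ℝ) < N := by exact_mod_cast hN
  have hN1 : (1:ℝ) ≤ N := by exact_mod_cast hN
  have hS0 : ∀ n : ℕ, ∑ k ∈ Icc 0 n, χ (k : ZMod q) = ∑ k ∈ Icc 1 n, χ k := by
    intro n
    rw [← Finset.insert_Icc_add_one_left_eq_Icc (Nat.zero_le n), Finset.sum_insert (by simp)]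
    simp [char_zero χ hχ]
  have hderiv : ∀ t : ℝ, t ≠ 0 → HasDerivAt (fun t : ℝ => ((t:ℂ))⁻¹) (-((t:ℂ)^2)⁻¹) t := by
    intro t ht
    have h1 : HasDerivAt (fun t : ℝ => (t:ℂ)) 1 t := Complex.ofRealCLM.hasDerivAt
    have h2 := h1.inv (by exact_mod_cast ht : (t:ℂ) ≠ 0)
    refine h2.congr_deriv ?_
    field_simp
  have key := sum_mul_eq_sub_integral_mul₀' (𝕜 := ℂ) (fun k : ℕ => χ (k : ZMod q)) (f := fun t : ℝ => ((t:ℂ))⁻¹)
    (by simpa using char_zero χ hχ) N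
    (fun t ht => (hderiv t (by linarith [ht.1])).differentiableAt) (by
      have : ContinuousOn (fun t : ℝ => -((t:ℂ)^2)⁻¹) (Set.Icc (1:ℝ) N) := by
        apply ContinuousOn.neg
        apply ContinuousOn.inv₀
        · fun_prop
        · intro t ht
          have : (t:ℝ) ≠ 0 := by linarith [ht.1]
          exact_mod_cast pow_ne_zero 2 this
      refine (this.integrableOn_Icc).congr_fun ?_ measurableSet_Icc
      intro t ht
      exact ((hderiv t (by linarith [ht.1])).deriv).symm)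
  have hL : ∑ k ∈ Icc 0 N, ((k:ℝ):ℂ)⁻¹ * χ k = ∑ k ∈ Ioc 0 N, χ k / k := by
    rw [← Finset.insert_Icc_add_one_left_eq_Icc (Nat.zero_le N), Finset.sum_insert (by simp)]
    simp only [Nat.cast_zero, Complex.ofReal_zero, inv_zero, zero_mul, zero_add]
    apply Finset.sum_congr
    · ext k; simp only [mem_Icc, mem_Ioc]; omega
    · intro k _
      push_cast
      rw [div_eq_mul_inv, mul_comm]
  rw [hL] at key
  have hgint : IntegrableOn (fun t : ℝ => S χ t * ((t:ℂ)^2)⁻¹) (Set.Ioi 1) := by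
    refine Integrable.mono' (integrableOn_rpow_neg_two.const_mul (q:ℝ)) ?_ ?_
    · apply Measurable.aestronglyMeasurable
      apply (measurable_S χ).mul
      exact (Complex.measurable_ofReal.pow_const 2).inv
    · filter_upwards with t
      rw [norm_mul, norm_inv, norm_pow, Complex.norm_real]
      apply mul_le_mul (norm_S_le χ hχ t) _ (by positivity) (Nat.cast_nonneg _)
      rw [Real.norm_eq_abs, sq_abs]
  have hI1 : ∫ t in Set.Ioc (1:ℝ) N, deriv (fun t : ℝ => ((t:ℂ))⁻¹) t * ∑ k ∈ Icc 0 ⌊t⌋₊, χ (k : ZMod q)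
      = - ∫ t in Set.Ioc (1:ℝ) N, S χ t * ((t:ℂ)^2)⁻¹ := by
    rw [← integral_neg]
    apply setIntegral_congr_fun measurableSet_Ioc
    intro t ht
    simp only
    rw [(hderiv t (by linarith [ht.1])).deriv, hS0]
    unfold S
    ring
  rw [hI1, hS0] at key
  have hL1 : χ.LFunction 1 = ∫ t in Set.Ioi (1:ℝ), S χ t * ((t:ℂ)^2)⁻¹ := by
    rw [LFunction_one_eq_integral χ hχ]
    apply setIntegral_congr_fun measurableSet_Ioi
    intro t ht
    simp only
    rw [Complex.cpow_neg]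
    congr 2
    exact_mod_cast Complex.cpow_natCast (t:ℂ) 2
  have hsplit : ∫ t in Set.Ioi (1:ℝ), S χ t * ((t:ℂ)^2)⁻¹
      = (∫ t in Set.Ioc (1:ℝ) N, S χ t * ((t:ℂ)^2)⁻¹) + ∫ t in Set.Ioi (N:ℝ), S χ t * ((t:ℂ)^2)⁻¹ := by
    rw [← Set.Ioc_union_Ioi_eq_Ioi hN1]
    apply setIntegral_union
    · rw [Set.disjoint_left]
      intro t ht ht'
      simp only [Set.mem_Ioc, Set.mem_Ioi] at ht ht'
      linarith
    · exact measurableSet_Ioi
    · exact hgint.mono_set (fun t ht => ht.1)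
    · exact hgint.mono_set (fun t ht => lt_of_le_of_lt hN1 ht)
  have htail : ‖∫ t in Set.Ioi (N:ℝ), S χ t * ((t:ℂ)^2)⁻¹‖ ≤ q / N := by
    have h1 : ‖∫ t in Set.Ioi (N:ℝ), S χ t * ((t:ℂ)^2)⁻¹‖ ≤ ∫ t in Set.Ioi (N:ℝ), (q:ℝ) * (t^(-2:ℝ)) := by
      apply norm_integral_le_of_norm_le
      · exact (integrableOn_Ioi_rpow_of_lt (by norm_num) hN0).const_mul _
      · rw [ae_restrict_iff' measurableSet_Ioi]
        filter_upwards with t ht
        have ht0 : (0:ℝ) < t := lt_trans hN0 ht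
        rw [norm_mul, norm_inv, norm_pow, Complex.norm_real]
        apply mul_le_mul (norm_S_le χ hχ t) _ (by positivity) (Nat.cast_nonneg _)
        rw [Real.norm_eq_abs, sq_abs, Real.rpow_neg ht0.le]
        norm_cast
    refine h1.trans (le_of_eq ?_)
    rw [integral_const_mul, integral_Ioi_rpow_of_lt (by norm_num) hN0]
    norm_num
    rw [Real.rpow_neg_one]
    rfl
  rw [key, hL1, hsplit]
  have e : (((N:ℝ):ℂ))⁻¹ * ∑ k ∈ Icc 1 N, χ (k : ZMod q) - (-∫ t in Set.Ioc (1:ℝ) N, S χ t * ((t:ℂ)^2)⁻¹)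
      - ((∫ t in Set.Ioc (1:ℝ) N, S χ t * ((t:ℂ)^2)⁻¹) + ∫ t in Set.Ioi (N:ℝ), S χ t * ((t:ℂ)^2)⁻¹)
      = (((N:ℝ):ℂ))⁻¹ * ∑ k ∈ Icc 1 N, χ (k : ZMod q) - ∫ t in Set.Ioi (N:ℝ), S χ t * ((t:ℂ)^2)⁻¹ := by ring
  rw [e]
  refine (norm_sub_le _ _).trans ?_
  have h2 : ‖(((N:ℝ):ℂ))⁻¹ * ∑ k ∈ Icc 1 N, χ (k : ZMod q)‖ ≤ q / N := by
    rw [norm_mul, norm_inv, Complex.norm_real, Real.norm_eq_abs, abs_of_pos hN0, div_eq_inv_mul]
    exact mul_le_mul_of_nonneg_left (norm_sum_char_le χ hχ N) (by positivity)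
  have e2 : 2 * (q:ℝ) / N = q / N + q / N := by ring
  rw [e2]
  exact add_le_add h2 htail

/-- Discrete Dirichlet test. -/
lemma norm_sum_Ioc_mul_le (χ : DirichletCharacter ℂ q) (hχ : χ ≠ 1) (f : ℕ → ℝ) (M : ℕ)
    (hf : ∀ k, M < k → f (k+1) ≤ f k) (hf0 : ∀ k, M < k → 0 ≤ f k) (N : ℕ) (hMN : M < N) :
    ‖∑ k ∈ Ioc M N, χ k * f k‖ ≤ 2 * q * f (M+1) := by
  -- T k = S k - S M
  set T : ℕ → ℂ := fun n => ∑ k ∈ Ioc M n, χ (k : ZMod q) with hT
  have hTb : ∀ n, ‖T n‖ ≤ 2 * q := by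
    intro n
    rcases le_or_gt M n with h | h
    · have : T n = ∑ k ∈ Icc 1 n, χ (k : ZMod q) - ∑ k ∈ Icc 1 M, χ (k : ZMod q) := by
        rw [eq_sub_iff_add_eq, hT]
        have e : Icc 1 n = Ioc M n ∪ Icc 1 M := by
          ext k; simp only [mem_Icc, mem_union, mem_Ioc]; omega
        simp only
        rw [e, Finset.sum_union]
        rw [Finset.disjoint_left]
        intro k; simp only [mem_Icc, mem_Ioc]; omega
      rw [this]
      refine (norm_sub_le _ _).trans ?_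
      have h1 := norm_sum_char_le χ hχ n
      have h2 := norm_sum_char_le χ hχ M
      linarith
    · have : T n = 0 := by
        simp only [hT]
        rw [Finset.Ioc_eq_empty_of_le h.le]
        simp
      rw [this]; simp
  have hid : ∀ n, M < n → ∑ k ∈ Ioc M n, χ (k : ZMod q) * f k
      = T n * f n + ∑ k ∈ Ico (M+1) n, T k * ((f k - f (k+1) : ℝ) : ℂ) := by
    intro n hn
    induction n, hn using Nat.le_induction with
    | base => simp [hT, Nat.Ioc_succ_singleton]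
    | succ n hn ih =>
      rw [← Finset.insert_Ioc_right_eq_Ioc_add_one (by omega), Finset.sum_insert (by simp), ih,
        Finset.sum_Ico_succ_top (by omega)]
      have : T (n+1) = χ ((n+1 : ℕ) : ZMod q) + T n := by
        simp only [hT]
        rw [← Finset.insert_Ioc_right_eq_Ioc_add_one (by omega), Finset.sum_insert (by simp)]
      rw [this]
      push_cast
      ring
  rw [hid N hMN]
  have hb : ∀ n, M < n → ‖T n * f n‖ + ∑ k ∈ Ico (M+1) n, ‖T k * ((f k - f (k+1) : ℝ) : ℂ)‖ ≤ 2 * q * f (M+1) := by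
    intro n hn
    have h1 : ‖T n * f n‖ ≤ 2 * q * f n := by
      rw [norm_mul, Complex.norm_real, Real.norm_eq_abs, abs_of_nonneg (hf0 n hn)]
      exact mul_le_mul_of_nonneg_right (hTb n) (hf0 n hn)
    have h2 : ∑ k ∈ Ico (M+1) n, ‖T k * ((f k - f (k+1) : ℝ) : ℂ)‖ ≤ ∑ k ∈ Ico (M+1) n, 2 * q * (f k - f (k+1)) := by
      apply Finset.sum_le_sum
      intro k hk
      rw [Finset.mem_Ico] at hk
      have h3 : 0 ≤ f k - f (k+1) := by linarith [hf k (by omega)]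
      rw [norm_mul, Complex.norm_real, Real.norm_eq_abs, abs_of_nonneg h3]
      exact mul_le_mul_of_nonneg_right (hTb k) h3
    have h3 : ∀ n, M < n → ∑ k ∈ Ico (M+1) n, 2 * (q:ℝ) * (f k - f (k+1)) = 2 * q * (f (M+1) - f n) := by
      intro n hn
      induction n, hn using Nat.le_induction with
      | base => simp
      | succ n hn ih =>
        rw [Finset.sum_Ico_succ_top (by omega), ih]
        ring
    rw [h3 n hn] at h2
    linarith
  refine (norm_add_le _ _).trans ((add_le_add_right (norm_sum_le _ _) _).trans (hb N hMN))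

/-- `∑_{k ≤ N} χ(k) log k / k = O(1)`. -/
lemma sum_char_log_div (χ : DirichletCharacter ℂ q) (hχ : χ ≠ 1) :
    ∃ C : ℝ, 0 ≤ C ∧ ∀ N : ℕ, ‖∑ k ∈ Ioc 0 N, χ k * ((Real.log k / k : ℝ) : ℂ)‖ ≤ C := by
  have htriv : ∀ N : ℕ, N ≤ 3 → ‖∑ k ∈ Ioc 0 N, χ k * ((Real.log k / k : ℝ) : ℂ)‖
      ≤ ∑ k ∈ Ioc (0:ℕ) 3, Real.log k / k := by
    intro N hN
    refine (norm_sum_le _ _).trans ?_
    refine (Finset.sum_le_sum (fun k hk => ?_)).trans
      (Finset.sum_le_sum_of_subset_of_nonneg (Finset.Ioc_subset_Ioc_right hN)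
        (fun k _ _ => div_nonneg (Real.log_natCast_nonneg k) (Nat.cast_nonneg k)))
    have h0 : 0 ≤ Real.log k / k := div_nonneg (Real.log_natCast_nonneg k) (Nat.cast_nonneg k)
    rw [norm_mul, Complex.norm_real, Real.norm_eq_abs, abs_of_nonneg h0]
    exact mul_le_of_le_one_left h0 (χ.norm_le_one _)
  have hs0 : 0 ≤ ∑ k ∈ Ioc (0:ℕ) 3, Real.log k / k :=
    Finset.sum_nonneg (fun k _ => div_nonneg (Real.log_natCast_nonneg k) (Nat.cast_nonneg k))
  have ht0 : 0 ≤ 2 * (q:ℝ) * (Real.log (3+1 : ℕ) / (3+1 : ℕ)) := by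
    have : 0 ≤ Real.log ((3+1 : ℕ):ℝ) := Real.log_natCast_nonneg _
    positivity
  refine ⟨∑ k ∈ Ioc (0:ℕ) 3, Real.log k / k + 2 * q * (Real.log (3+1 : ℕ) / (3+1 : ℕ)), by linarith, ?_⟩
  intro N
  rcases le_or_gt N 3 with h | h
  · exact (htriv N h).trans (by linarith)
  · have e : Ioc 0 N = Ioc 0 3 ∪ Ioc 3 N := by
      ext k; simp only [mem_union, mem_Ioc]; omega
    rw [e, Finset.sum_union]
    · refine (norm_add_le _ _).trans (add_le_add (htriv 3 le_rfl) ?_)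
      apply norm_sum_Ioc_mul_le χ hχ (fun k : ℕ => Real.log k / k) 3 _ _ N h
      · intro k hk
        have he : Real.exp 1 ≤ (k:ℝ) := by
          have h1 := Real.exp_one_lt_d9
          have h2 : (4:ℝ) ≤ k := by exact_mod_cast hk
          linarith
        have := Real.log_div_self_antitoneOn (show (k:ℝ) ∈ Set.Ici (Real.exp 1) from he)
          (show ((k+1:ℕ):ℝ) ∈ Set.Ici (Real.exp 1) by
            simp only [Set.mem_Ici]; push_cast; linarith) (by push_cast; linarith)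
        simpa using this
      · intro k _
        exact div_nonneg (Real.log_natCast_nonneg k) (Nat.cast_nonneg k)
    · rw [Finset.disjoint_left]
      intro k; simp only [mem_Ioc]; omega

/-- `χ(n) Λ(n) / n` as an arithmetic function. -/
noncomputable def Fa (χ : DirichletCharacter ℂ q) : ArithmeticFunction ℂ :=
  ⟨fun n => χ n * ((vonMangoldt n / n : ℝ) : ℂ), by simp⟩

/-- `χ(n) / n` as an arithmetic function. -/
noncomputable def Ga (χ : DirichletCharacter ℂ q) : ArithmeticFunction ℂ :=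
  ⟨fun n => χ n / n, by simp⟩

lemma Fa_mul_Ga (χ : DirichletCharacter ℂ q) (n : ℕ) :
    (Fa χ * Ga χ) n = χ n * ((Real.log n / n : ℝ) : ℂ) := by
  rcases Nat.eq_zero_or_pos n with h0 | h0
  · subst h0; simp
  rw [ArithmeticFunction.mul_apply]
  have h1 : ∀ x ∈ n.divisorsAntidiagonal, Fa χ x.1 * Ga χ x.2 = (χ n / n) * ((vonMangoldt x.1 : ℝ) : ℂ) := by
    intro x hx
    rw [Nat.mem_divisorsAntidiagonal] at hx
    have hx1 : x.1 ≠ 0 := by rintro h; rw [h] at hx; simp at hx; omega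
    have hx2 : x.2 ≠ 0 := by rintro h; rw [h] at hx; simp at hx; omega
    have hx1' : (x.1 : ℂ) ≠ 0 := by exact_mod_cast hx1
    have hx2' : (x.2 : ℂ) ≠ 0 := by exact_mod_cast hx2
    have e : χ (n : ZMod q) = χ (x.1 : ZMod q) * χ (x.2 : ZMod q) := by
      rw [← map_mul, ← Nat.cast_mul, hx.1]
    have e2 : (n : ℂ) = x.1 * x.2 := by rw [← hx.1]; push_cast; rfl
    simp only [Fa, Ga, ArithmeticFunction.coe_mk]
    rw [e, e2]
    push_cast
    field_simp
  rw [Finset.sum_congr rfl h1, ← Finset.mul_sum]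
  rw [Nat.sum_divisorsAntidiagonal (f := fun d _ => ((vonMangoldt d : ℝ) : ℂ))]
  rw [← Complex.ofReal_sum, vonMangoldt_sum]
  push_cast
  ring

/-- `∑_{n ≤ N} χ(n) Λ(n) / n = O(1)` for `χ ≠ 1`. -/
theorem sum_char_vonMangoldt_div (χ : DirichletCharacter ℂ q) (hχ : χ ≠ 1) :
    ∃ C : ℝ, 0 ≤ C ∧ ∀ N : ℕ, ‖∑ n ∈ Ioc 0 N, χ n * ((vonMangoldt n / n : ℝ) : ℂ)‖ ≤ C := by
  obtain ⟨C₁, hC₁, h₁⟩ := sum_char_log_div χ hχ
  have hL := DirichletCharacter.LFunction_apply_one_ne_zero hχ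
  have hLpos : 0 < ‖χ.LFunction 1‖ := norm_pos_iff.mpr hL
  have hlog4 : 0 ≤ Real.log 4 := Real.log_nonneg (by norm_num)
  refine ⟨(C₁ + 4 * q * (Real.log 4 + 4)) / ‖χ.LFunction 1‖, by positivity, ?_⟩
  intro N
  rcases Nat.eq_zero_or_pos N with h0 | hN
  · subst h0; simp; positivity
  have hN0 : (0:ℝ) < N := by exact_mod_cast hN
  rw [le_div_iff₀ hLpos, ← norm_mul]
  have key := sum_Ioc_mul_eq_sum_sum (Fa χ) (Ga χ) N
  simp_rw [Fa_mul_Ga] at key
  have hsplit : (∑ n ∈ Ioc 0 N, χ n * ((vonMangoldt n / n : ℝ) : ℂ)) * χ.LFunction 1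
      = ∑ k ∈ Ioc 0 N, χ k * ((Real.log k / k : ℝ) : ℂ)
        - ∑ n ∈ Ioc 0 N, (χ n * ((vonMangoldt n / n : ℝ) : ℂ)) *
            (∑ m ∈ Ioc 0 (N / n), χ m / m - χ.LFunction 1) := by
    rw [key, Finset.sum_mul, ← Finset.sum_sub_distrib]
    apply Finset.sum_congr rfl
    intro n _
    simp only [Fa, Ga, ArithmeticFunction.coe_mk]
    ring
  rw [hsplit]
  refine (norm_sub_le _ _).trans (add_le_add (h₁ N) ?_)
  refine (norm_sum_le _ _).trans ?_
  have h2 : ∀ n ∈ Ioc 0 N, ‖(χ n * ((vonMangoldt n / n : ℝ) : ℂ)) *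
            (∑ m ∈ Ioc 0 (N / n), χ m / m - χ.LFunction 1)‖ ≤ 4 * q / N * vonMangoldt n := by
    intro n hn
    rw [Finset.mem_Ioc] at hn
    have hn0 : (0:ℝ) < n := by exact_mod_cast hn.1
    have hd : 1 ≤ N / n := (Nat.one_le_div_iff hn.1).mpr hn.2
    have hd0 : (0:ℝ) < ((N / n : ℕ) : ℝ) := by exact_mod_cast hd
    have h3 := sum_char_div_sub_le χ hχ (N / n) hd
    have hΛ : 0 ≤ vonMangoldt n := vonMangoldt_nonneg
    have h4 : ‖χ n * ((vonMangoldt n / n : ℝ) : ℂ)‖ ≤ vonMangoldt n / n := by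
      have h0 : 0 ≤ vonMangoldt n / (n:ℝ) := by positivity
      rw [norm_mul, Complex.norm_real, Real.norm_eq_abs, abs_of_nonneg h0]
      exact mul_le_of_le_one_left h0 (χ.norm_le_one _)
    have h5 : (N:ℝ) ≤ 2 * n * ((N / n : ℕ) : ℝ) := by
      have h6 : N < n * (N / n + 1) := Nat.lt_mul_div_succ N hn.1
      have h7 : N ≤ 2 * n * (N / n) := by nlinarith
      exact_mod_cast h7
    rw [norm_mul]
    calc ‖χ n * ((vonMangoldt n / n : ℝ) : ℂ)‖ * ‖∑ m ∈ Ioc 0 (N / n), χ m / m - χ.LFunction 1‖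
        ≤ (vonMangoldt n / n) * (2 * q / ((N / n : ℕ) : ℝ)) :=
          mul_le_mul h4 h3 (norm_nonneg _) (by positivity)
      _ = vonMangoldt n * (2 * q) * (1 / (n * ((N / n : ℕ) : ℝ))) := by field_simp
      _ ≤ vonMangoldt n * (2 * q) * (2 / N) := by
          apply mul_le_mul_of_nonneg_left _ (by positivity)
          rw [div_le_div_iff₀ (by positivity) hN0]
          linarith
      _ = 4 * q / N * vonMangoldt n := by ring
  refine (Finset.sum_le_sum h2).trans ?_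
  rw [← Finset.mul_sum]
  have h4 : ∑ n ∈ Finset.Ioc 0 N, ArithmeticFunction.vonMangoldt n ≤ (Real.log 4 + 4) * N := by
    have := Chebyshev.psi_le_const_mul_self (x := (N:ℝ)) hN0.le
    unfold Chebyshev.psi at this
    rwa [Nat.floor_natCast] at this
  calc 4 * (q:ℝ) / N * ∑ n ∈ Ioc 0 N, vonMangoldt n ≤ 4 * q / N * ((Real.log 4 + 4) * N) :=
        mul_le_mul_of_nonneg_left h4 (by positivity)
    _ = 4 * q * (Real.log 4 + 4) := by field_simp

end Pool.Agent.MertensAP
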